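import Pool.Agent.K7.H26.BL.Dec

/-! Job BL of project PT (MP_d88658_nt): bounds for the sums. -/

set_option autoImplicit false

open Finset

namespace Pool.Agent.K7.H26.BL

open Pool.Agent.K7.H23.PT

lemma two_le_zk (k : ℕ) : 2 ≤ zk k := by
  rw [zk]
  calc 2 = 2 ^ 1 := by norm_num
    _ ≤ 2 ^ 2 ^ (k - k / 200) := Nat.pow_le_pow_right (by norm_num) Nat.one_le_two_pow

lemma log_zk (k : ℕ) : Real.log (zk k) = 2 ^ (k - k / 200) * Real.log 2 := by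
  rw [zk]
  push_cast
  rw [Real.log_pow]
  push_cast
  ring

lemma log_zk_pos (k : ℕ) : 0 < Real.log (zk k) :=
  Real.log_pos (by exact_mod_cast two_le_zk k)

/-- the elements of `S` which do not divide `R` -/
def pr (R : ℕ) (S : Finset ℕ) : Finset ℕ := S.filter fun p => ¬ p ∣ R

lemma mem_pr {R : ℕ} {S : Finset ℕ} {p : ℕ} : p ∈ pr R S ↔ p ∈ S ∧ ¬ p ∣ R := by
  rw [pr, mem_filter]

lemma card_le_pr {R : ℕ} (hR : 1 ≤ R) {S : Finset ℕ} (hS : ∀ p ∈ S, p.Prime) :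
    S.card ≤ (pr R S).card + R.primeFactors.card := by
  rw [← Finset.card_filter_add_card_filter_not (s := S) (fun p => ¬ p ∣ R)]
  refine Nat.add_le_add le_rfl (Finset.card_le_card fun p hp => ?_)
  obtain ⟨h1, h2⟩ := mem_filter.1 hp
  exact Nat.mem_primeFactors.2 ⟨hS p h1, not_not.1 h2, by omega⟩

lemma pow_pr {R : ℕ} (hR : 1 ≤ R) {S : Finset ℕ} (hS : ∀ p ∈ S, p.Prime) :
    (2 : ℝ) ^ S.card ≤ 2 ^ R.primeFactors.card * 2 ^ (pr R S).card := by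
  rw [← pow_add, add_comm]
  exact pow_le_pow_right₀ (by norm_num) (card_le_pr hR hS)

lemma prod_pr_le {R : ℕ} {S : Finset ℕ} (hS : ∀ p ∈ S, p.Prime) :
    ∏ p ∈ pr R S, p ≤ ∏ p ∈ S, p :=
  Finset.prod_le_prod_of_subset_of_one_le' (Finset.filter_subset _ _) fun p hp _ =>
    (hS p hp).one_lt.le

variable {a b : ℤ} {R n N k : ℕ} {S T : Finset ℕ}

lemma card_FF_le {C : ℝ} (hC0 : 0 < C) (hC : SvBound C) (h2R : 2 ∣ R)
    (hthr : (zk k) ^ (32 * n) ≤ (Xk k) ^ 6) (hXN : Xk k ≤ N) {Δ : ℤ} (hTz : ∀ p ∈ T, p.Prime ∧ p ≤ zk k)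
    (hg : Good Δ R k n N S T) (σ : ℤ) (m b₂ r : ℕ) :
    ((FF σ R k n N m S T b₂ r).card : ℝ) ≤
      C * ((N : ℝ) / (m * (∏ p ∈ S, (p : ℝ)) * ((∏ p ∈ T, (p : ℝ)) * b₂))) /
        (2 ^ (pr R T).card * Real.log (zk k)) := by
  classical
  have hlog := log_zk_pos k
  have hPS : 0 ≤ ∏ p ∈ S, (p : ℝ) := Finset.prod_nonneg fun p _ => Nat.cast_nonneg p
  have hPT : 0 ≤ ∏ p ∈ T, (p : ℝ) := Finset.prod_nonneg fun p _ => Nat.cast_nonneg p
  rcases (FF σ R k n N m S T b₂ r).eq_empty_or_nonempty with he | ⟨x₀, hx₀⟩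
  · rw [he, Finset.card_empty, Nat.cast_zero]
    positivity
  · have hprime : ∀ p ∈ T, p.Prime := fun p hp => (hTz p hp).1
    have hx := (mem_filter.1 hx₀)
    rw [mem_Icc] at hx
    obtain ⟨⟨hx1, hx2⟩, hx3, hx4, hx5, hx6⟩ := hx
    set B := N / (m * (∏ p ∈ S, p) * ((∏ p ∈ T, p) * b₂)) with hB
    have key : (∏ p ∈ pr R T, p) * zk k ^ 4 ≤ B := by
      refine le_trans ?_ hx2
      refine le_trans (Nat.mul_le_mul_right _ (prod_pr_le hprime)) ?_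
      by_contra hcon
      push Not at hcon
      have e1 : N ^ 8 < ((∏ p ∈ S, p) * x₀) ^ (8 * n) := by
        rw [mul_comm 8 n, pow_mul]
        exact Nat.pow_lt_pow_left hx4 (by norm_num)
      have e2 : ((∏ p ∈ S, p) * x₀) ^ (8 * n) ≤ N ^ 8 := by
        calc ((∏ p ∈ S, p) * x₀) ^ (8 * n) = (∏ p ∈ S, p) ^ (8 * n) * x₀ ^ (8 * n) := mul_pow _ _ _
          _ ≤ N * ((∏ p ∈ T, p) * zk k ^ 4) ^ (8 * n) :=
              Nat.mul_le_mul hg.sn (Nat.pow_le_pow_left hcon.le _)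
          _ = N * ((∏ p ∈ T, p) ^ (8 * n) * zk k ^ (32 * n)) := by
              rw [mul_pow, ← pow_mul]
              congr 3
              ring
          _ ≤ N * (N * N ^ 6) :=
              Nat.mul_le_mul_left _ (Nat.mul_le_mul hg.tn (hthr.trans (Nat.pow_le_pow_left hXN 6)))
          _ = N ^ 8 := by ring
      omega
    have h := sv_set hC (z := zk k) (B := B) (t := σ * (∏ p ∈ S, p : ℕ) * m * r) (P := pr R T)
      (two_le_zk k) (fun p hp => by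
        obtain ⟨h1, h2⟩ := mem_pr.1 hp
        refine ⟨hprime p h1, fun h => ?_, (hTz p h1).2, hx5 p h1 h2⟩
        rw [h] at h2
        exact h2 h2R) key (FF σ R k n N m S T b₂ r) (fun x hx => by
        have hx' := (mem_filter.1 hx)
        rw [mem_Icc] at hx'
        refine ⟨hx'.1.1, hx'.1.2, hx'.2.1, fun p hp => ?_⟩
        obtain ⟨h1, h2⟩ := mem_pr.1 hp
        exact hx'.2.2.2.2 p h1 h2)
    refine h.trans ?_
    have hBle : (B : ℝ) ≤ (N : ℝ) / (m * (∏ p ∈ S, (p : ℝ)) * ((∏ p ∈ T, (p : ℝ)) * b₂)) := by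
      rw [hB]
      refine le_trans Nat.cast_div_le (le_of_eq ?_)
      push_cast
      rfl
    gcongr

lemma sum_r_le {C : ℝ} (hC0 : 0 < C) (hC : SvBound C) (h2R : 2 ∣ R) (hR : 1 ≤ R)
    (hthr : (zk k) ^ (32 * n) ≤ (Xk k) ^ 6) (hXN : Xk k ≤ N) {Δ : ℤ} (hTz : ∀ p ∈ T, p.Prime ∧ p ≤ zk k)
    (hg : Good Δ R k n N S T) (σ : ℤ) (m b₂ : ℕ) (hsq : Squarefree ((∏ p ∈ T, p) * b₂))
    (hw : 100 * b₂.primeFactors.card ≤ k) :
    (∑ r ∈ rts a b ((∏ p ∈ T, p) * b₂), ((FF σ R k n N m S T b₂ r).card : ℝ)) ≤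
      (C * N * 2 ^ R.primeFactors.card * (2 : ℝ) ^ ((k : ℝ) / 100) / Real.log (zk k)) /
        (m * (∏ p ∈ S, (p : ℝ)) * (∏ p ∈ T, (p : ℝ))) * (1 / b₂) := by
  have hlog := log_zk_pos k
  have hprime : ∀ p ∈ T, p.Prime := fun p hp => (hTz p hp).1
  have hPS : 0 ≤ ∏ p ∈ S, (p : ℝ) := Finset.prod_nonneg fun p _ => Nat.cast_nonneg p
  have hPT : 0 ≤ ∏ p ∈ T, (p : ℝ) := Finset.prod_nonneg fun p _ => Nat.cast_nonneg p
  set V : ℝ := (N : ℝ) / (m * (∏ p ∈ S, (p : ℝ)) * ((∏ p ∈ T, (p : ℝ)) * b₂)) with hV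
  have hV0 : 0 ≤ V := by positivity
  have h1 : (∑ r ∈ rts a b ((∏ p ∈ T, p) * b₂), ((FF σ R k n N m S T b₂ r).card : ℝ)) ≤
      (rts a b ((∏ p ∈ T, p) * b₂)).card * (C * V / (2 ^ (pr R T).card * Real.log (zk k))) := by
    rw [← nsmul_eq_mul]
    exact Finset.sum_le_card_nsmul _ _ _ fun r _ =>
      card_FF_le hC0 hC h2R hthr hXN hTz hg σ m b₂ r
  have h2 : ((rts a b ((∏ p ∈ T, p) * b₂)).card : ℝ) ≤
      2 ^ R.primeFactors.card * 2 ^ (pr R T).card * (2 : ℝ) ^ ((k : ℝ) / 100) := by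
    have h3 := card_rts a b hsq
    have h4 : ((∏ p ∈ T, p) * b₂).primeFactors.card ≤ T.card + b₂.primeFactors.card := by
      rw [Nat.primeFactors_mul (prod_pos hprime).ne' (by
        rintro rfl
        rw [mul_zero] at hsq
        exact not_squarefree_zero hsq), Nat.primeFactors_prod hprime]
      exact Finset.card_union_le _ _
    have h5 : ((2 : ℝ)) ^ b₂.primeFactors.card ≤ (2 : ℝ) ^ ((k : ℝ) / 100) := by
      rw [← Real.rpow_natCast]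
      refine Real.rpow_le_rpow_of_exponent_le (by norm_num) ?_
      have : (100 : ℝ) * b₂.primeFactors.card ≤ k := by exact_mod_cast hw
      linarith
    calc ((rts a b ((∏ p ∈ T, p) * b₂)).card : ℝ) ≤
          (2 : ℝ) ^ ((∏ p ∈ T, p) * b₂).primeFactors.card := by exact_mod_cast h3
      _ ≤ (2 : ℝ) ^ (T.card + b₂.primeFactors.card) := pow_le_pow_right₀ (by norm_num) h4
      _ = (2 : ℝ) ^ T.card * (2 : ℝ) ^ b₂.primeFactors.card := pow_add _ _ _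
      _ ≤ (2 ^ R.primeFactors.card * 2 ^ (pr R T).card) * (2 : ℝ) ^ ((k : ℝ) / 100) := by
          have := pow_pr hR hprime
          gcongr
  calc _ ≤ _ := h1
    _ ≤ (2 ^ R.primeFactors.card * 2 ^ (pr R T).card * (2 : ℝ) ^ ((k : ℝ) / 100)) *
        (C * V / (2 ^ (pr R T).card * Real.log (zk k))) := by gcongr
    _ = _ := by
        have hP : (2 : ℝ) ^ (pr R T).card * ((2 : ℝ) ^ (pr R T).card)⁻¹ = 1 :=
          mul_inv_cancel₀ (by positivity)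
        rw [hV]
        generalize (2 : ℝ) ^ (pr R T).card = P at hP
        generalize (2 : ℝ) ^ R.primeFactors.card = W
        generalize (2 : ℝ) ^ ((k : ℝ) / 100) = K
        generalize (∏ p ∈ S, (p : ℝ)) = s
        generalize (∏ p ∈ T, (p : ℝ)) = t
        simp only [div_eq_mul_inv, mul_inv, one_mul]
        linear_combination (W * K * C * N * (m : ℝ)⁻¹ * s⁻¹ * t⁻¹ * (b₂ : ℝ)⁻¹ *
          (Real.log (zk k))⁻¹) * hP

lemma sum_b2_inv {C : ℝ} (hC0 : 0 < C) (hC : SvBound C) (h2R : 2 ∣ R) (hbR : b ∣ (R : ℤ))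
    (hn : 1 ≤ n) (hthr : (zk k) ^ (32 * n) ≤ (Xk k) ^ 6) {Δ : ℤ}
    (hSz : ∀ p ∈ S, p.Prime ∧ p ≤ zk k) (hTz : ∀ p ∈ T, p.Prime ∧ p ≤ zk k)
    (hg : Good Δ R k n N S T) :
    (∑ x ∈ B2 b R k S T, (1 : ℝ) / x) ≤
      2 * C * 2 ^ (k + 1) / (2 ^ (pr R S).card * Real.log (zk k)) := by
  classical
  have hSp : ∀ p ∈ S, p.Prime := fun p hp => (hSz p hp).1
  have hTp : ∀ p ∈ T, p.Prime := fun p hp => (hTz p hp).1
  have h := sv_sum_inv hC0 hC (z := zk k) (K := 2 ^ (k + 1)) (t := b * (∏ p ∈ T, p : ℕ))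
    (P := pr R S) (two_le_zk k) (fun p hp => ?_) (B2 b R k S T) (fun x hx => ?_)
  · refine h.trans (le_of_eq ?_)
    push_cast
    rfl
  · obtain ⟨h1, h2⟩ := mem_pr.1 hp
    refine ⟨hSp p h1, fun h => ?_, (hSz p h1).2, fun h => ?_⟩
    · rw [h] at h2
      exact h2 h2R
    · have hpZ : Prime (p : ℤ) := Nat.prime_iff_prime_int.1 (hSp p h1)
      rcases hpZ.dvd_or_dvd h with h3 | h3
      · exact h2 (Int.natCast_dvd_natCast.1 (h3.trans hbR))
      · exact h2 (hg.disj p h1 ((dvd_prod_iff hTp (hSp p h1)).1 (Int.natCast_dvd_natCast.1 h3)))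
  · obtain ⟨h1, h2, h3, h4, h5, h6⟩ := mem_filter.1 hx
    have hx0 : x ≠ 0 := by
      rintro rfl
      rw [mul_zero] at h4
      exact not_squarefree_zero h4
    refine ⟨Nat.pos_of_ne_zero hx0, ?_, by rw [mem_range, Xk] at h1; exact h1, h3, fun p hp => ?_⟩
    · refine le_trans (Nat.mul_le_mul_right _ (prod_pr_le hSp)) ?_
      by_contra hcon
      push Not at hcon
      have hz1 : 1 ≤ zk k := le_trans (by norm_num) (two_le_zk k)
      have hXpos : 0 < Xk k := by rw [Xk]; positivity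
      have hTpos : 0 < ∏ p ∈ T, p := prod_pos hTp
      have e1 : Xk k ^ 8 < Xk k ^ 8 := by
        calc Xk k ^ 8 ≤ ((∏ p ∈ T, p) * x) ^ 8 := Nat.pow_le_pow_left h2 8
          _ < ((∏ p ∈ T, p) * ((∏ p ∈ S, p) * zk k ^ 4)) ^ 8 :=
              Nat.pow_lt_pow_left (Nat.mul_lt_mul_of_pos_left hcon hTpos) (by norm_num)
          _ = (∏ p ∈ T, p) ^ 8 * ((∏ p ∈ S, p) ^ 8 * zk k ^ 32) := by
              rw [mul_pow, mul_pow, ← pow_mul]
          _ ≤ Xk k * (Xk k * Xk k ^ 6) := by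
              refine Nat.mul_le_mul hg.t8 (Nat.mul_le_mul hg.s8 (le_trans ?_ hthr))
              exact Nat.pow_le_pow_right hz1 (by omega)
          _ = Xk k ^ 8 := by ring
      exact lt_irrefl _ e1
    · obtain ⟨h7, h8⟩ := mem_pr.1 hp
      exact h6 p h7 h8

lemma one_le_wt_factor {Δ : ℤ} (hg : Good Δ R k n N S T) :
    1 ≤ (3 / 2 : ℝ) ^ ((38 : ℝ) / 100 * k + R.primeFactors.card) *
      (2 / 3 : ℝ) ^ ((fs Δ S).card + T.card) := by
  have h1 : (((fs Δ S).card + T.card : ℕ) : ℝ) ≤ (38 : ℝ) / 100 * k + R.primeFactors.card := by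
    have h2 : ((100 * ((fs Δ S).card + T.card) : ℕ) : ℝ) ≤
        ((38 * k + 100 * R.primeFactors.card : ℕ) : ℝ) := by exact_mod_cast hg.count
    push_cast at h2 ⊢
    linarith
  have h3 : ((3 : ℝ) / 2) ^ ((fs Δ S).card + T.card) ≤
      (3 / 2 : ℝ) ^ ((38 : ℝ) / 100 * k + R.primeFactors.card) := by
    rw [← Real.rpow_natCast]
    exact Real.rpow_le_rpow_of_exponent_le (by norm_num) h1
  have h4 : ((3 : ℝ) / 2) ^ ((fs Δ S).card + T.card) * (2 / 3 : ℝ) ^ ((fs Δ S).card + T.card) =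
      1 := by
    rw [← mul_pow]
    norm_num
  calc (1 : ℝ) = ((3 : ℝ) / 2) ^ ((fs Δ S).card + T.card) *
        (2 / 3 : ℝ) ^ ((fs Δ S).card + T.card) := h4.symm
    _ ≤ _ := by gcongr

/-- The contribution of a pair `S`, `T`. -/
lemma pair_le {C : ℝ} (hC0 : 0 < C) (hC : SvBound C) (h2R : 2 ∣ R) (hbR : b ∣ (R : ℤ))
    (hR : 1 ≤ R) (hn : 1 ≤ n) (hthr : (zk k) ^ (32 * n) ≤ (Xk k) ^ 6) (hXN : Xk k ≤ N) {Δ : ℤ}
    (hSz : ∀ p ∈ S, p.Prime ∧ p ≤ zk k) (hTz : ∀ p ∈ T, p.Prime ∧ p ≤ zk k)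
    (hg : Good Δ R k n N S T) (σ : ℤ) (m : ℕ) :
    (∑ b₂ ∈ B2 b R k S T, ∑ r ∈ rts a b ((∏ p ∈ T, p) * b₂),
      ((FF σ R k n N m S T b₂ r).card : ℝ)) ≤
      (C * N * 2 ^ R.primeFactors.card * (2 : ℝ) ^ ((k : ℝ) / 100) / Real.log (zk k)) *
        (4 * C * 2 ^ k * 2 ^ R.primeFactors.card / Real.log (zk k)) *
        (3 / 2 : ℝ) ^ ((38 : ℝ) / 100 * k + R.primeFactors.card) * (1 / m) * wt Δ S T := by
  classical
  have hlog := log_zk_pos k
  have hSp : ∀ p ∈ S, p.Prime := fun p hp => (hSz p hp).1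
  have hPS : 0 < ∏ p ∈ S, (p : ℝ) := Finset.prod_pos fun p hp => by
    exact_mod_cast (hSp p hp).pos
  have hPT : 0 < ∏ p ∈ T, (p : ℝ) := Finset.prod_pos fun p hp => by
    exact_mod_cast (hTz p hp).1.pos
  set Q : ℝ := C * N * 2 ^ R.primeFactors.card * (2 : ℝ) ^ ((k : ℝ) / 100) / Real.log (zk k)
    with hQ
  have hQ0 : 0 ≤ Q := by positivity
  have h1 : (∑ b₂ ∈ B2 b R k S T, ∑ r ∈ rts a b ((∏ p ∈ T, p) * b₂),
      ((FF σ R k n N m S T b₂ r).card : ℝ)) ≤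
      ∑ b₂ ∈ B2 b R k S T, Q / (m * (∏ p ∈ S, (p : ℝ)) * (∏ p ∈ T, (p : ℝ))) * (1 / b₂) := by
    refine Finset.sum_le_sum fun b₂ hb₂ => ?_
    obtain ⟨-, -, -, h4, h5, -⟩ := mem_filter.1 hb₂
    exact sum_r_le hC0 hC h2R hR hthr hXN hTz hg σ m b₂ h4 h5
  have h2 := sum_b2_inv hC0 hC h2R hbR hn hthr hSz hTz hg
  have h3 : 2 * C * 2 ^ (k + 1) / (2 ^ (pr R S).card * Real.log (zk k)) ≤
      (4 * C * 2 ^ k * 2 ^ R.primeFactors.card / Real.log (zk k)) * (1 / 2 ^ S.card) := by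
    have h4 := pow_pr hR hSp
    have h5 : (1 : ℝ) / 2 ^ (pr R S).card ≤ 2 ^ R.primeFactors.card * (1 / 2 ^ S.card) := by
      rw [mul_one_div, div_le_div_iff₀ (by positivity) (by positivity), one_mul]
      exact h4
    calc 2 * C * 2 ^ (k + 1) / (2 ^ (pr R S).card * Real.log (zk k)) =
          (4 * C * 2 ^ k / Real.log (zk k)) * (1 / 2 ^ (pr R S).card) := by
          rw [pow_succ]
          field_simp
          ring
      _ ≤ (4 * C * 2 ^ k / Real.log (zk k)) * (2 ^ R.primeFactors.card * (1 / 2 ^ S.card)) := by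
          gcongr
      _ = _ := by ring
  have h6 := one_le_wt_factor hg
  calc _ ≤ _ := h1
    _ = Q / (m * (∏ p ∈ S, (p : ℝ)) * (∏ p ∈ T, (p : ℝ))) *
        ∑ b₂ ∈ B2 b R k S T, (1 : ℝ) / b₂ := by rw [Finset.mul_sum]
    _ ≤ Q / (m * (∏ p ∈ S, (p : ℝ)) * (∏ p ∈ T, (p : ℝ))) *
        ((4 * C * 2 ^ k * 2 ^ R.primeFactors.card / Real.log (zk k)) * (1 / 2 ^ S.card)) := by
        have := h2.trans h3
        gcongr
    _ = Q * (4 * C * 2 ^ k * 2 ^ R.primeFactors.card / Real.log (zk k)) * (1 / m) *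
        (1 / (2 ^ S.card * (∏ p ∈ S, (p : ℝ)) * ∏ p ∈ T, (p : ℝ))) * 1 := by
        simp only [div_eq_mul_inv, mul_inv, one_mul]
        ring
    _ ≤ Q * (4 * C * 2 ^ k * 2 ^ R.primeFactors.card / Real.log (zk k)) * (1 / m) *
        (1 / (2 ^ S.card * (∏ p ∈ S, (p : ℝ)) * ∏ p ∈ T, (p : ℝ))) *
        ((3 / 2 : ℝ) ^ ((38 : ℝ) / 100 * k + R.primeFactors.card) *
          (2 / 3 : ℝ) ^ ((fs Δ S).card + T.card)) := by
        gcongr
    _ = _ := by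
        rw [wt]
        simp only [div_eq_mul_inv, mul_inv, one_mul]
        ring

end Pool.Agent.K7.H26.BL
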