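import Pool.Agent.K7.H26.BL.Mq

/-! Job BL of project PT (MP_d88658_nt): decomposition of the numbers `D = c₁ c₂ m`. -/

set_option autoImplicit false

open Finset

namespace Pool.Agent.K7.H26.BL

open Pool.Agent.K7.H23.PT

/-- conditions for the pair of the smooth parts -/
structure Good (Δ : ℤ) (R k n N : ℕ) (S T : Finset ℕ) : Prop where
  count : 100 * ((fs Δ S).card + T.card) ≤ 38 * k + 100 * R.primeFactors.card
  s8 : (∏ p ∈ S, p) ^ 8 ≤ Xk k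
  sn : (∏ p ∈ S, p) ^ (8 * n) ≤ N
  t8 : (∏ p ∈ T, p) ^ 8 ≤ Xk k
  tn : (∏ p ∈ T, p) ^ (8 * n) ≤ N
  disj : ∀ p ∈ S, p ∈ T → p ∣ R

open scoped Classical in
/-- the possible rough parts of `c₂` -/
noncomputable def B2 (b : ℤ) (R k : ℕ) (S T : Finset ℕ) : Finset ℕ :=
  (range (Xk (k + 1))).filter fun x => Xk k ≤ (∏ p ∈ T, p) * x ∧ Rough (zk k) x ∧
    Squarefree ((∏ p ∈ T, p) * x) ∧ 100 * x.primeFactors.card ≤ k ∧
    ∀ p ∈ S, ¬ p ∣ R → IsSquare (((b * (∏ p ∈ T, p : ℕ)) * x : ℤ) : ZMod p)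

open scoped Classical in
/-- the possible rough parts of `c₁` -/
noncomputable def FF (σ : ℤ) (R k n N m : ℕ) (S T : Finset ℕ) (b₂ r : ℕ) : Finset ℕ :=
  (Icc 1 (N / (m * (∏ p ∈ S, p) * ((∏ p ∈ T, p) * b₂)))).filter fun x => Rough (zk k) x ∧
    N < ((∏ p ∈ S, p) * x) ^ n ∧
    (∀ p ∈ T, ¬ p ∣ R → ¬ (p : ℤ) ∣ σ * (∏ p ∈ S, p : ℕ) * m * r) ∧
    ∀ p ∈ T, ¬ p ∣ R → IsSquare (((σ * (∏ p ∈ S, p : ℕ) * m * r) * x : ℤ) : ZMod p)

/-- the smooth part and the rough part of a squarefree number -/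
lemma split_sq {c z : ℕ} (hc : Squarefree c) :
    ∃ S : Finset ℕ, ∃ x : ℕ, S ⊆ PP z ∧ (∏ p ∈ S, p) * x = c ∧ Rough z x ∧ Squarefree x ∧
      S = c.primeFactors.filter (fun p => p ≤ z) ∧
      x.primeFactors = c.primeFactors.filter (fun p => ¬ p ≤ z) := by
  have hp : ∀ p ∈ c.primeFactors.filter (fun p => ¬ p ≤ z), p.Prime := fun p hp =>
    Nat.prime_of_mem_primeFactors (mem_filter.1 hp).1
  refine ⟨c.primeFactors.filter (fun p => p ≤ z),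
    ∏ p ∈ c.primeFactors.filter (fun p => ¬ p ≤ z), p, ?_, ?_, ?_, squarefree_prod hp, rfl,
    Nat.primeFactors_prod hp⟩
  · intro p hp
    obtain ⟨h1, h2⟩ := mem_filter.1 hp
    exact mem_PP.2 ⟨Nat.prime_of_mem_primeFactors h1, h2⟩
  · rw [Finset.prod_filter_mul_prod_filter_not, Nat.prod_primeFactors_of_squarefree hc]
  · intro p hpp hpz hpd
    have := (dvd_prod_iff hp hpp).1 hpd
    exact (mem_filter.1 this).2 hpz

lemma isSquare_disc {a b r : ℤ} {c p : ℕ} (hc : (c : ℤ) ∣ r ^ 2 + a * r + b) (hp : p ∣ c) :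
    IsSquare ((a ^ 2 - 4 * b : ℤ) : ZMod p) := by
  have h1 : (p : ℤ) ∣ r ^ 2 + a * r + b := (Int.natCast_dvd_natCast.2 hp).trans hc
  have h2 := (ZMod.intCast_zmod_eq_zero_iff_dvd (r ^ 2 + a * r + b) p).2 h1
  refine ⟨((2 * r + a : ℤ) : ZMod p), ?_⟩
  have h3 : (a ^ 2 - 4 * b : ℤ) = (2 * r + a) * (2 * r + a) - 4 * (r ^ 2 + a * r + b) := by ring
  rw [h3, Int.cast_sub, Int.cast_mul, Int.cast_mul 4, h2, mul_zero, sub_zero]

lemma exists_tuple {a b : ℤ} {R n N k : ℕ} (hR : 2 * b * (a ^ 2 - 4 * b) ∣ (R : ℤ)) (hR1 : 1 ≤ R)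
    (hk : (4 ^ (k + 1)) ^ n ≤ N) {D : ℤ} (hD0 : D ≠ 0) (hDN : |D| ≤ N)
    (hT : TypK (a ^ 2 - 4 * b) k n N D) (hB : Big (a ^ 2 - 4 * b) n N D) {c₁ c₂ m r : ℤ}
    (hD : D = c₁ * c₂ * m) (hL : Loc a b R c₁ c₂ m r) (h1 : (Xk k : ℤ) ≤ c₂)
    (h2 : c₂ < Xk (k + 1)) (hm : m ≤ 4 ^ (k + 1)) :
    ∃ σ ∈ ({1, -1} : Finset ℤ), ∃ m' ∈ Icc 1 (4 ^ (k + 1)), ∃ S ∈ (PP (zk k)).powerset,
      ∃ T ∈ (PS (a ^ 2 - 4 * b) (zk k)).powerset, Good (a ^ 2 - 4 * b) R k n N S T ∧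
      ∃ b₂ ∈ B2 b R k S T, ∃ r' ∈ rts a b ((∏ p ∈ T, p) * b₂),
      ∃ b₁ ∈ FF σ R k n N m' S T b₂ r',
      σ * ((∏ p ∈ S, p : ℕ) * b₁) * ((∏ p ∈ T, p : ℕ) * b₂) * m' = D := by
  classical
  obtain ⟨hs1, hs2, hm0, hc20, hcommon, hco1, hco2, hrt, hq1, hq2⟩ := hL
  set Δ : ℤ := a ^ 2 - 4 * b with hΔ
  -- natural numbers
  obtain ⟨C₂, rfl⟩ : ∃ C₂ : ℕ, c₂ = C₂ := ⟨c₂.toNat, by omega⟩
  obtain ⟨m, rfl⟩ : ∃ m' : ℕ, m = m' := ⟨m.toNat, by omega⟩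
  have hsC2 : Squarefree C₂ := Int.squarefree_natCast.1 hs2
  obtain ⟨σ, hσ, C₁, hC1⟩ : ∃ σ ∈ ({1, -1} : Finset ℤ), ∃ C₁ : ℕ, c₁ = σ * C₁ := by
    rcases Int.natAbs_eq c₁ with h | h
    · exact ⟨1, by simp, c₁.natAbs, by rw [one_mul]; exact h⟩
    · exact ⟨-1, by simp, c₁.natAbs, by rw [neg_one_mul]; exact h⟩
  have hσ' : σ = 1 ∨ σ = -1 := by simpa using hσ
  have hσabs : |σ| = 1 := by rcases hσ' with rfl | rfl <;> simp
  have hσu : IsUnit σ := by rcases hσ' with rfl | rfl <;> simp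
  have hc1n : c₁.natAbs = C₁ := by
    rw [hC1, Int.natAbs_mul]
    rcases hσ' with rfl | rfl <;> simp
  have hsC1 : Squarefree C₁ := by
    rw [← hc1n]
    exact Int.squarefree_natAbs.2 hs1
  have hdvd1 : ∀ p : ℕ, p ∣ C₁ ↔ (p : ℤ) ∣ c₁ := by
    intro p
    rw [Int.natCast_dvd, hc1n]
  have hdvd2 : ∀ p : ℕ, p ∣ C₂ ↔ (p : ℤ) ∣ (C₂ : ℤ) := fun p => Int.natCast_dvd_natCast.symm
  have hDabs : D.natAbs = C₁ * C₂ * m := by
    rw [hD, Int.natAbs_mul, Int.natAbs_mul, hc1n, Int.natAbs_natCast, Int.natAbs_natCast]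
  have hDn0 : C₁ * C₂ * m ≠ 0 := by
    rw [← hDabs]
    exact Int.natAbs_ne_zero.2 hD0
  have hDle : C₁ * C₂ * m ≤ N := by
    rw [← hDabs]
    have : (D.natAbs : ℤ) ≤ N := by rw [Int.natCast_natAbs]; exact hDN
    exact_mod_cast this
  have hbR : ∀ p : ℕ, (p : ℤ) ∣ b → p ∣ R := by
    intro p hp
    have h3 : (p : ℤ) ∣ (R : ℤ) := (hp.trans ⟨2 * (a ^ 2 - 4 * b), by ring⟩).trans hR
    exact Int.natCast_dvd_natCast.1 h3
  obtain ⟨S, b₁, hSP, hSb, hrb1, hsb1, hSdef, hpb1⟩ := split_sq (z := zk k) hsC1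
  obtain ⟨T, b₂, hTP, hTb, hrb2, hsb2, hTdef, hpb2⟩ := split_sq (z := zk k) hsC2
  have hSprime : ∀ p ∈ S, p.Prime := fun p hp => (mem_PP.1 (hSP hp)).1
  have hTprime : ∀ p ∈ T, p.Prime := fun p hp => (mem_PP.1 (hTP hp)).1
  have hSdvd : ∀ p ∈ S, p ∣ C₁ := fun p hp => by
    rw [hSdef, mem_filter] at hp
    exact Nat.dvd_of_mem_primeFactors hp.1
  have hTdvd : ∀ p ∈ T, p ∣ C₂ := fun p hp => by
    rw [hTdef, mem_filter] at hp
    exact Nat.dvd_of_mem_primeFactors hp.1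
  have hTsq : ∀ p ∈ T, IsSquare ((Δ : ℤ) : ZMod p) := fun p hp =>
    isSquare_disc hrt (hTdvd p hp)
  have hSD : ∀ p ∈ S, p ∈ D.natAbs.primeFactors := fun p hp => by
    rw [hDabs, Nat.mem_primeFactors]
    exact ⟨hSprime p hp, ((hSdvd p hp).mul_right _).mul_right _, hDn0⟩
  have hTD : ∀ p ∈ T, p ∈ D.natAbs.primeFactors := fun p hp => by
    rw [hDabs, Nat.mem_primeFactors]
    exact ⟨hTprime p hp, ((hTdvd p hp).mul_left _).mul_right _, hDn0⟩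
  have hST : ∀ p ∈ S, p ∈ T → p ∣ R := fun p hpS hpT =>
    hcommon p (hSprime p hpS) ((hdvd1 p).1 (hSdvd p hpS)) ((hdvd2 p).1 (hTdvd p hpT))
  -- the prime p₀
  obtain ⟨p₀, hp₀, hp₀D, hp₀N, hp₀sq⟩ := hB
  have hp₀2 : ¬ p₀ ∣ C₂ := fun h => hp₀sq (isSquare_disc hrt h)
  have hmn : m ≤ 4 ^ (k + 1) := by exact_mod_cast hm
  have hp₀m : ¬ p₀ ∣ m := by
    intro h
    have hm0' : 0 < m := by omega
    have h3 : p₀ ≤ m := Nat.le_of_dvd hm0' h
    have h4 : p₀ ^ n ≤ (4 ^ (k + 1)) ^ n := Nat.pow_le_pow_left (h3.trans hmn) n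
    omega
  have hp₀1 : p₀ ∣ C₁ := by
    have h3 : p₀ ∣ C₁ * C₂ * m := by
      rw [← hDabs]
      exact Int.natCast_dvd.1 hp₀D
    rcases (hp₀.dvd_mul).1 h3 with h4 | h4
    · rcases (hp₀.dvd_mul).1 h4 with h5 | h5
      · exact h5
      · exact absurd h5 hp₀2
    · exact absurd h4 hp₀m
  have hC1pos : 0 < C₁ := Nat.pos_of_ne_zero hsC1.ne_zero
  have hC2pos : 0 < C₂ := Nat.pos_of_ne_zero hsC2.ne_zero
  have hbig : N < C₁ ^ n := lt_of_lt_of_le hp₀N (Nat.pow_le_pow_left (Nat.le_of_dvd hC1pos hp₀1) n)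
  obtain ⟨ht1, ht2, ht3, ht4⟩ := hT
  -- smooth parts are bounded by sm
  have hsm1 : ∀ U : Finset ℕ, (∀ p ∈ U, p ∈ D.natAbs.primeFactors ∧ p ≤ zk k) →
      ∏ p ∈ U, p ≤ sm (zk k) D := by
    intro U hU
    refine Finset.prod_le_prod_of_subset_of_one_le' (fun p hp => mem_filter.2 (hU p hp)) ?_
    intro p hp _
    exact (Nat.prime_of_mem_primeFactors (mem_filter.1 hp).1).one_lt.le
  have hsS := hsm1 S fun p hp => ⟨hSD p hp, (mem_PP.1 (hSP hp)).2⟩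
  have hsT := hsm1 T fun p hp => ⟨hTD p hp, (mem_PP.1 (hTP hp)).2⟩
  have hgood : Good Δ R k n N S T := by
    refine ⟨?_, (Nat.pow_le_pow_left hsS 8).trans ht3, (Nat.pow_le_pow_left hsS _).trans ht4,
      (Nat.pow_le_pow_left hsT 8).trans ht3, (Nat.pow_le_pow_left hsT _).trans ht4, hST⟩
    have h3 : (fs Δ S ∪ T).card ≤ ws Δ (zk k) D := by
      refine Finset.card_le_card fun p hp => ?_
      rcases mem_union.1 hp with h | h
      · have h' := mem_fs.1 h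
        exact mem_filter.2 ⟨hSD p h'.1, (mem_PP.1 (hSP h'.1)).2, h'.2⟩
      · exact mem_filter.2 ⟨hTD p h, (mem_PP.1 (hTP h)).2, hTsq p h⟩
    have h4 : (fs Δ S ∩ T).card ≤ R.primeFactors.card := by
      refine Finset.card_le_card fun p hp => ?_
      obtain ⟨h5, h6⟩ := mem_inter.1 hp
      have h7 := (mem_fs.1 h5).1
      exact Nat.mem_primeFactors.2 ⟨hSprime p h7, hST p h7 h6, by omega⟩
    have h5 := Finset.card_union_add_card_inter (fs Δ S) T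
    omega
  refine ⟨σ, hσ, m, mem_Icc.2 ⟨by omega, hmn⟩, S, mem_powerset.2 hSP, T, mem_powerset.2 ?_, hgood,
    b₂, ?_, ((r % (C₂ : ℤ)).toNat), ?_, b₁, ?_, ?_⟩
  · intro p hp
    exact mem_PS.2 ⟨hTprime p hp, (mem_PP.1 (hTP hp)).2, hTsq p hp⟩
  · rw [B2, mem_filter, mem_range]
    have hTpos : 0 < ∏ p ∈ T, p := prod_pos hTprime
    have hX2 : C₂ < Xk (k + 1) := by exact_mod_cast h2
    have hX1 : Xk k ≤ C₂ := by exact_mod_cast h1
    refine ⟨lt_of_le_of_lt ?_ hX2, by rw [hTb]; exact hX1, hrb2, by rw [hTb]; exact hsC2, ?_, ?_⟩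
    · rw [← hTb]
      exact Nat.le_mul_of_pos_left b₂ hTpos
    · refine le_trans (Nat.mul_le_mul_left 100 ?_) ht2
      refine Finset.card_le_card fun p hp => ?_
      rw [hpb2, mem_filter] at hp
      have hpC := Nat.dvd_of_mem_primeFactors hp.1
      have hpp := Nat.prime_of_mem_primeFactors hp.1
      refine mem_filter.2 ⟨?_, by omega, (Nat.le_of_dvd hC2pos hpC).trans hX2.le⟩
      rw [hDabs, Nat.mem_primeFactors]
      exact ⟨hpp, (hpC.mul_left _).mul_right _, hDn0⟩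
    · intro p hp hpR
      have h3 := hq1 p (hSprime p hp) ((hdvd1 p).1 (hSdvd p hp)) hpR
      have h4 : (b * ((∏ p ∈ T, p : ℕ) : ℤ)) * (b₂ : ℤ) = b * (C₂ : ℤ) := by
        rw [← hTb]; push_cast; ring
      rw [h4]
      exact h3
  · have h3 : ((r % (C₂ : ℤ)).toNat : ℤ) = r % C₂ := Int.toNat_of_nonneg
      (Int.emod_nonneg _ (by positivity))
    rw [hTb, rts, mem_filter, mem_range]
    constructor
    · have h4 := Int.emod_lt_of_pos r (show (0 : ℤ) < C₂ by exact_mod_cast hC2pos)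
      omega
    · rw [h3]
      have h4 : r % (C₂ : ℤ) = r - C₂ * (r / C₂) := by
        have := Int.emod_add_mul_ediv r C₂
        linarith
      have h5 : (r % (C₂ : ℤ)) ^ 2 + a * (r % (C₂ : ℤ)) + b =
          (r ^ 2 + a * r + b) - C₂ * ((r / C₂) * (2 * r - C₂ * (r / C₂) + a)) := by
        rw [h4]; ring
      rw [h5]
      exact dvd_sub hrt (dvd_mul_right _ _)
  · have h3 : ((r % (C₂ : ℤ)).toNat : ℤ) = r % C₂ := Int.toNat_of_nonneg
      (Int.emod_nonneg _ (by positivity))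
    have h4 : r % (C₂ : ℤ) = r - C₂ * (r / C₂) := by
      have := Int.emod_add_mul_ediv r C₂
      linarith
    have hb1pos : 1 ≤ b₁ := Nat.pos_of_ne_zero hsb1.ne_zero
    rw [FF, mem_filter, mem_Icc, hTb]
    have hSpos : 0 < ∏ p ∈ S, p := prod_pos hSprime
    have hm0' : 0 < m := by omega
    refine ⟨⟨hb1pos, ?_⟩, hrb1, by rw [hSb]; exact hbig, ?_, ?_⟩
    · rw [Nat.le_div_iff_mul_le (Nat.mul_pos (Nat.mul_pos hm0' hSpos) hC2pos)]
      calc b₁ * (m * (∏ p ∈ S, p) * C₂) = (∏ p ∈ S, p) * b₁ * C₂ * m := by ring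
        _ = C₁ * C₂ * m := by rw [hSb]
        _ ≤ N := hDle
    · intro p hp hpR hdv
      have hpp := hTprime p hp
      have hpZ : Prime (p : ℤ) := Nat.prime_iff_prime_int.1 hpp
      have hpC2 := (hdvd2 p).1 (hTdvd p hp)
      rcases hpZ.dvd_or_dvd hdv with h5 | h5
      · rcases hpZ.dvd_or_dvd h5 with h6 | h6
        · rcases hpZ.dvd_or_dvd h6 with h7 | h7
          · exact hpZ.not_isUnit (isUnit_of_dvd_unit h7 hσu)
          · have h8 : p ∈ S := (dvd_prod_iff hSprime hpp).1 (Int.natCast_dvd_natCast.1 h7)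
            exact hpR (hST p h8 hp)
        · exact hpZ.not_isUnit (hco2.isUnit_of_dvd' hpC2 h6)
      · rw [h3, h4] at h5
        have h6 : (p : ℤ) ∣ r := by
          have h7 : (p : ℤ) ∣ C₂ * (r / C₂) := hpC2.mul_right _
          have := dvd_add h5 h7
          simpa using this
        have h7 : (p : ℤ) ∣ b := by
          have h8 : (p : ℤ) ∣ r ^ 2 + a * r + b := hpC2.trans hrt
          have h9 : b = (r ^ 2 + a * r + b) - r * (r + a) := by ring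
          rw [h9]
          exact dvd_sub h8 (h6.mul_right _)
        exact hpR (hbR p h7)
    · intro p hp hpR
      have hpC2 := (hdvd2 p).1 (hTdvd p hp)
      have h5 := hq2 p (hTprime p hp) hpC2 hpR
      have h6 : (σ * ((∏ p ∈ S, p : ℕ) : ℤ) * (m : ℤ) * ((r % (C₂ : ℤ)).toNat : ℤ)) * (b₁ : ℤ) =
          c₁ * m * r - C₂ * (c₁ * m * (r / C₂)) := by
        rw [h3, h4, hC1, ← hSb]
        push_cast
        ring
      rw [h6, Int.cast_sub, Int.cast_mul (C₂ : ℤ), (ZMod.intCast_zmod_eq_zero_iff_dvd _ p).2 hpC2,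
        zero_mul, sub_zero]
      exact h5
  · rw [hD, hC1, ← hSb, ← hTb]
    push_cast
    ring

end Pool.Agent.K7.H26.BL
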