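import Pool.Agent.K7.H26.BL.Num

/-! Job BL of project PT (MP_d88658_nt): the final count. -/

set_option autoImplicit false

open Finset

namespace Pool.Agent.K7.H26.BL

open Pool.Agent.K7.H23.PT

lemma card_biUnion_le_real {ι : Type} (s : Finset ι) (f : ι → Finset ℤ) (g : ι → ℝ)
    (h : ∀ i ∈ s, ((f i).card : ℝ) ≤ g i) : ((s.biUnion f).card : ℝ) ≤ ∑ i ∈ s, g i := by
  classical
  calc ((s.biUnion f).card : ℝ) ≤ ((∑ i ∈ s, (f i).card : ℕ) : ℝ) := by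
        exact_mod_cast Finset.card_biUnion_le
    _ = ∑ i ∈ s, ((f i).card : ℝ) := by push_cast; rfl
    _ ≤ ∑ i ∈ s, g i := Finset.sum_le_sum h

theorem stBL (hSV : StSV) (hMQ : StMQ) : StBL := by
  classical
  intro a b R hΔ hR1 hRd n hn
  obtain ⟨C₁, hC₁0, hC₁⟩ := hSV
  replace hC₁ : SvBound C₁ := hC₁
  obtain ⟨C₂, hC₂0, hC₂⟩ := mqBound hMQ hΔ
  set w := R.primeFactors.card with hw
  obtain ⟨C₃, hC₃0, hC₃⟩ := numeric w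
  set Δ : ℤ := a ^ 2 - 4 * b with hΔdef
  have h2R : 2 ∣ R := by
    have : ((2 : ℕ) : ℤ) ∣ (R : ℤ) := Dvd.dvd.trans ⟨b * Δ, by push_cast; ring⟩ hRd
    exact Int.natCast_dvd_natCast.1 this
  have hbR : b ∣ (R : ℤ) := Dvd.dvd.trans ⟨2 * Δ, by ring⟩ hRd
  refine ⟨32 * C₁ * C₁ * 2 ^ w * 2 ^ w * Real.exp (2 * C₂) * C₃, 1200 * n, 1, by positivity,
    fun N k hN hk hXN => ?_⟩
  obtain ⟨hthr, hthr2⟩ := thresholds hk
  have hlog := log_zk_pos k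
  -- the covering set
  let U : Finset ℤ := ({1, -1} : Finset ℤ).biUnion fun σ => (Icc 1 (4 ^ (k + 1))).biUnion fun m =>
    (PP (zk k)).powerset.biUnion fun S =>
    ((PS Δ (zk k)).powerset.filter fun T => Good Δ R k n N S T).biUnion fun T =>
    (B2 b R k S T).biUnion fun b₂ => (rts a b ((∏ p ∈ T, p) * b₂)).biUnion fun r =>
    (FF σ R k n N m S T b₂ r).image fun b₁ : ℕ =>
      σ * ((∏ p ∈ S, p : ℕ) * b₁) * ((∏ p ∈ T, p : ℕ) * b₂) * m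
  set K₀ : ℝ := (C₁ * N * 2 ^ w * (2 : ℝ) ^ ((k : ℝ) / 100) / Real.log (zk k)) *
        (4 * C₁ * 2 ^ k * 2 ^ w / Real.log (zk k)) *
        (3 / 2 : ℝ) ^ ((38 : ℝ) / 100 * k + w) with hK₀
  have hK₀0 : 0 ≤ K₀ := by positivity
  have hU : (U.card : ℝ) ≤ ∑ _σ ∈ ({1, -1} : Finset ℤ), ∑ m ∈ (Icc 1 (4 ^ (k + 1)) : Finset ℕ),
      ∑ S ∈ (PP (zk k)).powerset, ∑ T ∈ (PS Δ (zk k)).powerset, K₀ * (1 / (m : ℝ)) * wt Δ S T := by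
    refine card_biUnion_le_real _ _ _ fun σ _ => card_biUnion_le_real _ _ _ fun m _ =>
      card_biUnion_le_real _ _ _ fun S hS => ?_
    refine le_trans (card_biUnion_le_real _ _ (fun T => K₀ * (1 / (m : ℝ)) * wt Δ S T)
      fun T hT => ?_) ?_
    · obtain ⟨hT1, hg⟩ := mem_filter.1 hT
      have hSz : ∀ p ∈ S, p.Prime ∧ p ≤ zk k := fun p hp => mem_PP.1 (mem_powerset.1 hS hp)
      have hTz : ∀ p ∈ T, p.Prime ∧ p ≤ zk k := fun p hp => by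
        have := mem_PS.1 (mem_powerset.1 hT1 hp)
        exact ⟨this.1, this.2.1⟩
      refine le_trans ?_ (pair_le (a := a) hC₁0 hC₁ h2R hbR hR1 hn hthr hXN hSz hTz hg σ m)
      refine card_biUnion_le_real _ _ _ fun b₂ _ => card_biUnion_le_real _ _ _ fun r _ => ?_
      exact_mod_cast Finset.card_image_le
    · refine Finset.sum_le_sum_of_subset_of_nonneg (Finset.filter_subset _ _) fun T _ _ => ?_
      exact mul_nonneg (mul_nonneg hK₀0 (by positivity)) (wt_nonneg Δ S T)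
  have hsub : {D : ℤ | D ≠ 0 ∧ |D| ≤ N ∧ TypK Δ k n N D ∧
      Big Δ n N D ∧ ∃ c₁ c₂ m r : ℤ, D = c₁ * c₂ * m ∧ Loc a b R c₁ c₂ m r ∧
        (Xk k : ℤ) ≤ c₂ ∧ c₂ < Xk (k + 1) ∧ m ≤ 4 ^ (k + 1)} ⊆ (U : Set ℤ) := by
    rintro D ⟨h1, h2, h3, h4, c₁, c₂, m, r, h5, h6, h7, h8, h9⟩
    obtain ⟨σ, hσ, m', hm', S, hS, T, hT, hg, b₂, hb₂, r', hr', b₁, hb₁, hD⟩ :=
      exists_tuple hRd hR1 (hthr2.trans hXN) h1 h2 h3 h4 h5 h6 h7 h8 h9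
    rw [mem_coe]
    refine mem_biUnion.2 ⟨σ, hσ, mem_biUnion.2 ⟨m', hm', mem_biUnion.2 ⟨S, hS, mem_biUnion.2
      ⟨T, mem_filter.2 ⟨hT, hg⟩, mem_biUnion.2 ⟨b₂, hb₂, mem_biUnion.2 ⟨r', hr',
      mem_image.2 ⟨b₁, hb₁, ?_⟩⟩⟩⟩⟩⟩⟩
    exact hD
  have hcard : (Set.ncard {D : ℤ | D ≠ 0 ∧ |D| ≤ N ∧ TypK Δ k n N D ∧
      Big Δ n N D ∧ ∃ c₁ c₂ m r : ℤ, D = c₁ * c₂ * m ∧ Loc a b R c₁ c₂ m r ∧
        (Xk k : ℤ) ≤ c₂ ∧ c₂ < Xk (k + 1) ∧ m ≤ 4 ^ (k + 1)} : ℝ) ≤ U.card := by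
    rw [← Set.ncard_coe_finset U, Nat.cast_le]
    exact Set.ncard_le_ncard hsub (Finset.finite_toSet U)
  have hsum : (∑ _σ ∈ ({1, -1} : Finset ℤ), ∑ m ∈ (Icc 1 (4 ^ (k + 1)) : Finset ℕ),
      ∑ S ∈ (PP (zk k)).powerset, ∑ T ∈ (PS Δ (zk k)).powerset,
        K₀ * (1 / (m : ℝ)) * wt Δ S T) =
      2 * (K₀ * (∑ m ∈ (Icc 1 (4 ^ (k + 1)) : Finset ℕ), 1 / (m : ℝ)) *
        ∑ S ∈ (PP (zk k)).powerset, ∑ T ∈ (PS Δ (zk k)).powerset, wt Δ S T) := by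
    rw [Finset.sum_const]
    have : ({1, -1} : Finset ℤ).card = 2 := by decide
    rw [this, nsmul_eq_mul, Nat.cast_ofNat]
    congr 1
    simp only [← Finset.mul_sum]
    rw [← Finset.sum_mul, ← Finset.mul_sum]
  have hs1 := sum_inv_le k
  have hs2 := sum_wt hC₂0 hC₂ (two_le_zk k)
  have hwt0 : 0 ≤ ∑ S ∈ (PP (zk k)).powerset, ∑ T ∈ (PS Δ (zk k)).powerset, wt Δ S T :=
    Finset.sum_nonneg fun S _ => Finset.sum_nonneg fun T _ => wt_nonneg Δ S T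
  calc _ ≤ (U.card : ℝ) := hcard
    _ ≤ _ := hU
    _ = _ := hsum
    _ ≤ 2 * (K₀ * (4 * ((k : ℝ) + 1)) *
        (Real.exp (2 * C₂) * (Real.log (zk k)) ^ (3 / 4 : ℝ))) := by
        gcongr
    _ = 32 * C₁ * C₁ * 2 ^ w * 2 ^ w * Real.exp (2 * C₂) * (((k : ℝ) + 1) *
        (2 : ℝ) ^ ((k : ℝ) / 100) * 2 ^ k *
        (3 / 2 : ℝ) ^ ((38 : ℝ) / 100 * k + w) * (Real.log (zk k)) ^ (3 / 4 : ℝ) /
        (Real.log (zk k) * Real.log (zk k))) * N := by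
        rw [hK₀]
        simp only [div_eq_mul_inv, mul_inv]
        ring
    _ ≤ 32 * C₁ * C₁ * 2 ^ w * 2 ^ w * Real.exp (2 * C₂) * (C₃ * (199 / 200 : ℝ) ^ k) * N := by
        have := hC₃ k
        gcongr
    _ = _ := by ring

end Pool.Agent.K7.H26.BL
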