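import Pool.Agent.K7.H26.BL.Sv

/-! Job BL of project PT (MP_d88658_nt): the sum over the smooth parts. -/

set_option autoImplicit false

open Finset

namespace Pool.Agent.K7.H26.BL

open scoped Classical in
/-- the primes `≤ z` -/
noncomputable def PP (z : ℕ) : Finset ℕ := (range (z + 1)).filter fun p => p.Prime

open scoped Classical in
/-- the number of elements of `S` modulo which `Δ` is a square -/
noncomputable def fs (Δ : ℤ) (S : Finset ℕ) : Finset ℕ :=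
  S.filter fun p => IsSquare ((Δ : ℤ) : ZMod p)

/-- the primes `≤ z` modulo which `Δ` is a square -/
noncomputable def PS (Δ : ℤ) (z : ℕ) : Finset ℕ := fs Δ (PP z)

lemma mem_PP {z p : ℕ} : p ∈ PP z ↔ p.Prime ∧ p ≤ z := by
  rw [PP, mem_filter, mem_range, Nat.lt_succ_iff, and_comm]

lemma mem_fs {Δ : ℤ} {S : Finset ℕ} {p : ℕ} :
    p ∈ fs Δ S ↔ p ∈ S ∧ IsSquare ((Δ : ℤ) : ZMod p) := by
  classical
  simp only [fs, mem_filter]

lemma mem_PS {Δ : ℤ} {z p : ℕ} :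
    p ∈ PS Δ z ↔ p.Prime ∧ p ≤ z ∧ IsSquare ((Δ : ℤ) : ZMod p) := by
  rw [PS, mem_fs, mem_PP, and_assoc]

/-- Mertens' theorem with the constant `C` -/
def MqBound (Δ : ℤ) (C : ℝ) : Prop := ∀ z : ℕ, 2 ≤ z →
  (∑ p ∈ PS Δ z, (1 : ℝ) / p) ≤ Real.log (Real.log z) / 2 + C ∧
  (∑ p ∈ PP z \ PS Δ z, (1 : ℝ) / p) ≤ Real.log (Real.log z) / 2 + C

open Pool.Agent.K7.H23.PT in
open scoped Classical in
lemma mqBound (h : StMQ) {Δ : ℤ} (hΔ : ¬ IsSquare Δ) : ∃ C : ℝ, 0 ≤ C ∧ MqBound Δ C := by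
  obtain ⟨C, hC⟩ := h Δ hΔ
  refine ⟨C, (abs_nonneg _).trans (hC 2 le_rfl).1, fun z hz => ?_⟩
  obtain ⟨h1, h2⟩ := hC z hz
  have e1 : PS Δ z = (Finset.range (z + 1)).filter
      (fun p => p.Prime ∧ IsSquare ((Δ : ℤ) : ZMod p)) := by
    ext p
    rw [mem_PS, mem_filter, mem_range, Nat.lt_succ_iff]
    tauto
  have e2 : PP z \ PS Δ z = (Finset.range (z + 1)).filter
      (fun p => p.Prime ∧ ¬ IsSquare ((Δ : ℤ) : ZMod p)) := by
    ext p
    rw [mem_sdiff, mem_PS, mem_PP, mem_filter, mem_range, Nat.lt_succ_iff]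
    tauto
  rw [e2, e1]
  have h3 := (abs_le.1 h1).2
  have h4 := (abs_le.1 h2).2
  constructor <;> linarith

/-- the weight of a pair of sets of primes -/
noncomputable def wt (Δ : ℤ) (S T : Finset ℕ) : ℝ :=
  (2 / 3 : ℝ) ^ ((fs Δ S).card + T.card) / (2 ^ S.card * (∏ p ∈ S, (p : ℝ)) * ∏ p ∈ T, (p : ℝ))

open scoped Classical in
lemma wt_eq (Δ : ℤ) (S T : Finset ℕ) : wt Δ S T =
    (∏ p ∈ S, (if IsSquare ((Δ : ℤ) : ZMod p) then (1 / 3 : ℝ) else 1 / 2) * (1 / (p : ℝ))) *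
      ∏ p ∈ T, (2 / 3 : ℝ) * (1 / (p : ℝ)) := by
  have e1 : (∏ p ∈ S, (if IsSquare ((Δ : ℤ) : ZMod p) then (1 / 3 : ℝ) else 1 / 2) *
      (1 / (p : ℝ))) = (2 / 3 : ℝ) ^ (fs Δ S).card / 2 ^ S.card * ∏ p ∈ S, (1 / (p : ℝ)) := by
    rw [Finset.prod_mul_distrib]
    congr 1
    have : ∀ p ∈ S, (if IsSquare ((Δ : ℤ) : ZMod p) then (1 / 3 : ℝ) else 1 / 2) =
        (if IsSquare ((Δ : ℤ) : ZMod p) then (2 / 3 : ℝ) else 1) * (1 / 2) := by
      intro p _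
      split_ifs <;> norm_num
    rw [Finset.prod_congr rfl this, Finset.prod_mul_distrib, Finset.prod_const,
      Finset.prod_ite, Finset.prod_const, Finset.prod_const_one, mul_one, fs]
    rw [one_div, inv_pow, ← div_eq_mul_inv]
  rw [e1, Finset.prod_mul_distrib, Finset.prod_const, wt, pow_add, Finset.prod_div_distrib,
    Finset.prod_div_distrib, Finset.prod_const_one, Finset.prod_const_one]
  rw [div_mul_div_comm, mul_one_div, div_mul_div_comm, mul_assoc, mul_one]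

lemma sum_wt {Δ : ℤ} {C : ℝ} (hC0 : 0 ≤ C) (hC : MqBound Δ C) {z : ℕ} (hz : 2 ≤ z) :
    (∑ S ∈ (PP z).powerset, ∑ T ∈ (PS Δ z).powerset, wt Δ S T) ≤
      Real.exp (2 * C) * (Real.log z) ^ (3 / 4 : ℝ) := by
  classical
  have hlog : 0 < Real.log z := Real.log_pos (by exact_mod_cast hz)
  set g₁ : ℕ → ℝ := fun p =>
    (if IsSquare ((Δ : ℤ) : ZMod p) then (1 / 3 : ℝ) else 1 / 2) * (1 / (p : ℝ)) with hg₁
  set g₂ : ℕ → ℝ := fun p => (2 / 3 : ℝ) * (1 / (p : ℝ)) with hg₂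
  have e : (∑ S ∈ (PP z).powerset, ∑ T ∈ (PS Δ z).powerset, wt Δ S T) =
      (∏ p ∈ PP z, (1 + g₁ p)) * ∏ p ∈ PS Δ z, (1 + g₂ p) := by
    rw [Finset.prod_one_add, Finset.prod_one_add, Finset.sum_mul_sum]
    exact Finset.sum_congr rfl fun S _ => Finset.sum_congr rfl fun T _ => wt_eq Δ S T
  have h1 : ∀ p, 0 ≤ g₁ p := by
    intro p
    simp only [hg₁]
    split_ifs <;> positivity
  have h2 : ∀ p, 0 ≤ g₂ p := by
    intro p
    simp only [hg₂]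
    positivity
  have hsub : PS Δ z ⊆ PP z := Finset.filter_subset _ _
  have hs1 : (∑ p ∈ PP z, g₁ p) = (1 / 3) * (∑ p ∈ PS Δ z, (1 : ℝ) / p) +
      (1 / 2) * ∑ p ∈ PP z \ PS Δ z, (1 : ℝ) / p := by
    rw [← Finset.sum_sdiff hsub, Finset.mul_sum, Finset.mul_sum, add_comm]
    congr 1
    · refine Finset.sum_congr rfl fun p hp => ?_
      simp only [hg₁]
      rw [if_pos (mem_PS.1 hp).2.2]
    · refine Finset.sum_congr rfl fun p hp => ?_
      simp only [hg₁]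
      rw [mem_sdiff, mem_PS, mem_PP] at hp
      rw [if_neg (by tauto)]
  have hs2 : (∑ p ∈ PS Δ z, g₂ p) = (2 / 3) * (∑ p ∈ PS Δ z, (1 : ℝ) / p) := by
    rw [Finset.mul_sum]
  obtain ⟨hm1, hm2⟩ := hC z hz
  rw [e]
  calc (∏ p ∈ PP z, (1 + g₁ p)) * ∏ p ∈ PS Δ z, (1 + g₂ p) ≤
        Real.exp (∑ p ∈ PP z, g₁ p) * Real.exp (∑ p ∈ PS Δ z, g₂ p) := by
        refine mul_le_mul (Real.prod_one_add_le_exp_sum _ h1) (Real.prod_one_add_le_exp_sum _ h2)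
          (Finset.prod_nonneg fun p _ => by have := h2 p; linarith) (Real.exp_pos _).le
    _ = Real.exp ((∑ p ∈ PP z, g₁ p) + ∑ p ∈ PS Δ z, g₂ p) := (Real.exp_add _ _).symm
    _ ≤ Real.exp (2 * C + (3 / 4) * Real.log (Real.log z)) := by
        refine Real.exp_le_exp.2 ?_
        rw [hs1, hs2]
        linarith
    _ = Real.exp (2 * C) * (Real.log z) ^ (3 / 4 : ℝ) := by
        rw [Real.exp_add, Real.rpow_def_of_pos hlog, mul_comm (3 / 4 : ℝ)]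

lemma wt_nonneg (Δ : ℤ) (S T : Finset ℕ) : 0 ≤ wt Δ S T := by
  rw [wt]
  refine div_nonneg (by positivity) (mul_nonneg (mul_nonneg (by positivity) ?_) ?_)
  · exact Finset.prod_nonneg fun p _ => Nat.cast_nonneg p
  · exact Finset.prod_nonneg fun p _ => Nat.cast_nonneg p

end Pool.Agent.K7.H26.BL
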