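import Pool.Agent.K7.H26.BL.Bd

/-! Job BL of project PT (MP_d88658_nt): numerical facts. -/

set_option autoImplicit false

open Finset

namespace Pool.Agent.K7.H26.BL

open Pool.Agent.K7.H23.PT

lemma bound_mul_pow {ρ : ℝ} (h0 : 0 ≤ ρ) (h1 : ρ < 1) :
    ∃ C : ℝ, 0 < C ∧ ∀ k : ℕ, ((k : ℝ) + 1) * ρ ^ k ≤ C := by
  have h := (tendsto_self_mul_const_pow_of_lt_one h0 h1).bddAbove_range
  obtain ⟨C, hC⟩ := h
  refine ⟨max C 0 + 1, by positivity, fun k => ?_⟩
  have h2 : (k : ℝ) * ρ ^ k ≤ C := hC ⟨k, rfl⟩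
  have h3 : ρ ^ k ≤ 1 := pow_le_one₀ h0 h1.le
  have h4 : C ≤ max C 0 := le_max_left _ _
  nlinarith

lemma theta_neg : (38 : ℝ) / 100 * Real.log (3 / 2) - (187 / 800) * Real.log 2 <
    Real.log (199 / 200) := by
  have h : ((3 : ℝ) / 2) ^ 17 < 2 ^ 10 := by norm_num
  have h2 := Real.log_lt_log (by positivity) h
  rw [Real.log_pow, Real.log_pow] at h2
  push_cast at h2
  have h3 : Real.log (199 / 200) = -Real.log (200 / 199) := by
    rw [← Real.log_inv]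
    norm_num
  have h4 := Real.log_le_sub_one_of_pos (show (0 : ℝ) < 200 / 199 by norm_num)
  have h5 := Real.log_two_gt_d9
  rw [h3]
  linarith

/-- the final numerical bound -/
lemma numeric (w : ℕ) : ∃ C : ℝ, 0 < C ∧ ∀ k : ℕ, ((k : ℝ) + 1) * (2 : ℝ) ^ ((k : ℝ) / 100) * 2 ^ k *
    (3 / 2 : ℝ) ^ ((38 : ℝ) / 100 * k + w) * (Real.log (zk k)) ^ (3 / 4 : ℝ) /
    (Real.log (zk k) * Real.log (zk k)) ≤ C * (199 / 200 : ℝ) ^ k := by
  set θ : ℝ := (38 : ℝ) / 100 * Real.log (3 / 2) - (187 / 800) * Real.log 2 with hθ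
  set ρ : ℝ := Real.exp (θ - Real.log (199 / 200)) with hρ
  obtain ⟨C, hC0, hC⟩ := bound_mul_pow (Real.exp_pos (θ - Real.log (199 / 200))).le
    (by
      have h := Real.exp_lt_exp.2 (show θ - Real.log (199 / 200) < 0 by
        have := theta_neg
        linarith)
      rwa [Real.exp_zero] at h)
  have hl2 : 0 < Real.log 2 := Real.log_pos (by norm_num)
  refine ⟨C * Real.exp (Real.log (3 / 2) * w - 5 / 4 * Real.log (Real.log 2)), by positivity,
    fun k => ?_⟩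
  have hlog := log_zk_pos k
  have e1 : (2 : ℝ) ^ ((k : ℝ) / 100) = Real.exp (Real.log 2 * (k / 100)) := by
    rw [Real.rpow_def_of_pos (by norm_num)]
  have e2 : (2 : ℝ) ^ k = Real.exp (Real.log 2 * k) := by
    rw [← Real.rpow_natCast, Real.rpow_def_of_pos (by norm_num)]
  have e3 : (3 / 2 : ℝ) ^ ((38 : ℝ) / 100 * k + w) =
      Real.exp (Real.log (3 / 2) * ((38 : ℝ) / 100 * k + w)) := by
    rw [Real.rpow_def_of_pos (by norm_num)]
  have e4 : (Real.log (zk k)) ^ (3 / 4 : ℝ) / (Real.log (zk k) * Real.log (zk k)) =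
      Real.exp (-(5 / 4) * Real.log (Real.log (zk k))) := by
    have h1 : Real.log (zk k) * Real.log (zk k) =
        Real.exp (2 * Real.log (Real.log (zk k))) := by
      rw [two_mul, Real.exp_add, Real.exp_log hlog]
    rw [h1, Real.rpow_def_of_pos hlog, ← Real.exp_sub]
    congr 1
    ring
  have e5 : Real.log (Real.log (zk k)) = ((k - k / 200 : ℕ) : ℝ) * Real.log 2 +
      Real.log (Real.log 2) := by
    rw [log_zk, Real.log_mul (by positivity) hl2.ne', Real.log_pow]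
  have e6 : (199 / 200 : ℝ) * k ≤ ((k - k / 200 : ℕ) : ℝ) := by
    have h1 : 199 * k ≤ 200 * (k - k / 200) := by omega
    have h2 : ((199 * k : ℕ) : ℝ) ≤ ((200 * (k - k / 200) : ℕ) : ℝ) := by exact_mod_cast h1
    rw [Nat.cast_mul, Nat.cast_mul] at h2
    norm_num at h2 ⊢
    linarith
  have e7 : (199 / 200 : ℝ) ^ k = Real.exp (k * Real.log (199 / 200)) := by
    rw [mul_comm, ← Real.rpow_def_of_pos (by norm_num), Real.rpow_natCast]
  have e8 : ρ ^ k = Real.exp (k * (θ - Real.log (199 / 200))) := by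
    rw [hρ, Real.exp_nat_mul]
  have main : (2 : ℝ) ^ ((k : ℝ) / 100) * 2 ^ k * (3 / 2 : ℝ) ^ ((38 : ℝ) / 100 * k + w) *
      ((Real.log (zk k)) ^ (3 / 4 : ℝ) / (Real.log (zk k) * Real.log (zk k))) ≤
      Real.exp (Real.log (3 / 2) * w - 5 / 4 * Real.log (Real.log 2)) * ρ ^ k *
        (199 / 200 : ℝ) ^ k := by
    rw [e1, e2, e3, e4, e7, e8, ← Real.exp_add, ← Real.exp_add, ← Real.exp_add, ← Real.exp_add,
      ← Real.exp_add, e5]
    refine Real.exp_le_exp.2 ?_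
    have h1 : Real.log 2 * ((199 / 200 : ℝ) * k) ≤ Real.log 2 * ((k - k / 200 : ℕ) : ℝ) :=
      mul_le_mul_of_nonneg_left e6 hl2.le
    rw [hθ]
    nlinarith
  calc ((k : ℝ) + 1) * (2 : ℝ) ^ ((k : ℝ) / 100) * 2 ^ k *
      (3 / 2 : ℝ) ^ ((38 : ℝ) / 100 * k + w) * (Real.log (zk k)) ^ (3 / 4 : ℝ) /
      (Real.log (zk k) * Real.log (zk k)) = ((k : ℝ) + 1) * ((2 : ℝ) ^ ((k : ℝ) / 100) * 2 ^ k *
        (3 / 2 : ℝ) ^ ((38 : ℝ) / 100 * k + w) *
      ((Real.log (zk k)) ^ (3 / 4 : ℝ) / (Real.log (zk k) * Real.log (zk k)))) := by ring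
    _ ≤ ((k : ℝ) + 1) * (Real.exp (Real.log (3 / 2) * w - 5 / 4 * Real.log (Real.log 2)) *
        ρ ^ k * (199 / 200 : ℝ) ^ k) := by gcongr
    _ = (((k : ℝ) + 1) * ρ ^ k) * Real.exp (Real.log (3 / 2) * w - 5 / 4 * Real.log (Real.log 2)) *
        (199 / 200 : ℝ) ^ k := by ring
    _ ≤ C * Real.exp (Real.log (3 / 2) * w - 5 / 4 * Real.log (Real.log 2)) *
        (199 / 200 : ℝ) ^ k := by
        have := hC k
        gcongr

lemma quad_le_pow (k : ℕ) : k * (k + 1) ≤ 600 * 2 ^ k := by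
  induction k with
  | zero => norm_num
  | succ k ih =>
    rcases Nat.lt_or_ge k 2 with h | h
    · interval_cases k <;> norm_num
    · rw [pow_succ]
      nlinarith

lemma thresholds {n k : ℕ} (hk : 1200 * n ≤ k) :
    (zk k) ^ (32 * n) ≤ (Xk k) ^ 6 ∧ (4 ^ (k + 1)) ^ n ≤ Xk k := by
  constructor
  · rw [zk, Xk, ← pow_mul, ← pow_mul]
    refine Nat.pow_le_pow_right (by norm_num) ?_
    have h1 : 6 * n ≤ k / 200 := by omega
    have h2 : k / 200 < 2 ^ (k / 200) := Nat.lt_two_pow_self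
    have h3 : 2 ^ k = 2 ^ (k - k / 200) * 2 ^ (k / 200) := by
      rw [← pow_add]
      congr 1
      omega
    rw [h3, mul_assoc]
    exact Nat.mul_le_mul_left _ (by omega)
  · rw [Xk, show (4 : ℕ) = 2 ^ 2 by norm_num, ← pow_mul, ← pow_mul]
    refine Nat.pow_le_pow_right (by norm_num) ?_
    have h1 := quad_le_pow k
    have h2 : 1200 * (2 * (k + 1) * n) ≤ 1200 * 2 ^ k := by
      calc 1200 * (2 * (k + 1) * n) = 2 * (k + 1) * (1200 * n) := by ring
        _ ≤ 2 * (k + 1) * k := Nat.mul_le_mul_left _ hk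
        _ = 2 * (k * (k + 1)) := by ring
        _ ≤ 2 * (600 * 2 ^ k) := Nat.mul_le_mul_left _ h1
        _ = 1200 * 2 ^ k := by ring
    rw [← mul_assoc]
    exact Nat.le_of_mul_le_mul_left h2 (by norm_num)

lemma sum_inv_le (k : ℕ) :
    (∑ m ∈ (Icc 1 (4 ^ (k + 1)) : Finset ℕ), (1 : ℝ) / (m : ℝ)) ≤ 4 * ((k : ℝ) + 1) := by
  have h := harmonic_le_one_add_log (4 ^ (k + 1))
  rw [harmonic_eq_sum_Icc] at h
  push_cast at h
  rw [Real.log_pow] at h
  have h2 : Real.log 4 ≤ 3 := by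
    have := Real.log_le_sub_one_of_pos (show (0 : ℝ) < 4 by norm_num)
    linarith
  simp only [one_div]
  refine h.trans ?_
  push_cast
  have : (0 : ℝ) ≤ k := Nat.cast_nonneg k
  nlinarith

end Pool.Agent.K7.H26.BL
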