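import Pool.Agent.K7.H23.PT.Stm

/-! Job BL of project PT (MP_d88658_nt): roots of a quadratic polynomial modulo a squarefree number,
products of sets of primes. -/

set_option autoImplicit false

open Finset

namespace Pool.Agent.K7.H26.BL

/-- the roots of `x² + a x + b` modulo `c` -/
def rts (a b : ℤ) (c : ℕ) : Finset ℕ :=
  (range c).filter (fun r : ℕ => (c : ℤ) ∣ (r : ℤ) ^ 2 + a * r + b)

lemma card_rts_prime (a b : ℤ) {p : ℕ} (hp : p.Prime) : (rts a b p).card ≤ 2 := by
  have := Fact.mk hp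
  set f : Polynomial (ZMod p) := Polynomial.X ^ 2 + Polynomial.C (a : ZMod p) * Polynomial.X +
    Polynomial.C (b : ZMod p) with hf
  have hdeg : f.natDegree = 2 := by
    rw [hf]; compute_degree!
  have hf0 : f ≠ 0 := by
    intro h
    rw [h] at hdeg
    simp at hdeg
  have hsub : (rts a b p).image (fun r : ℕ => (r : ZMod p)) ⊆ f.roots.toFinset := by
    intro x hx
    obtain ⟨r, hr, rfl⟩ := Finset.mem_image.1 hx
    rw [rts, Finset.mem_filter] at hr
    rw [Multiset.mem_toFinset, Polynomial.mem_roots hf0, Polynomial.IsRoot.def, hf]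
    have h1 := (ZMod.intCast_zmod_eq_zero_iff_dvd ((r : ℤ) ^ 2 + a * r + b) p).2 hr.2
    simpa using h1
  have hinj : Set.InjOn (fun r : ℕ => (r : ZMod p)) (rts a b p : Set ℕ) := by
    intro r hr s hs hrs
    simp only [rts, Finset.coe_filter, Finset.mem_range, Set.mem_ofPred_eq] at hr hs
    have := (ZMod.natCast_eq_natCast_iff' r s p).1 hrs
    rwa [Nat.mod_eq_of_lt hr.1, Nat.mod_eq_of_lt hs.1] at this
  calc (rts a b p).card = ((rts a b p).image (fun r : ℕ => (r : ZMod p))).card :=
        (Finset.card_image_of_injOn hinj).symm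
    _ ≤ f.roots.toFinset.card := Finset.card_le_card hsub
    _ ≤ Multiset.card f.roots := Multiset.toFinset_card_le _
    _ ≤ f.natDegree := Polynomial.card_roots' f
    _ = 2 := hdeg

lemma card_rts (a b : ℤ) {c : ℕ} (hc : Squarefree c) :
    (rts a b c).card ≤ 2 ^ c.primeFactors.card := by
  have hc0 : c ≠ 0 := hc.ne_zero
  have key : (rts a b c).card ≤ (c.primeFactors.pi (fun p => rts a b p)).card := by
    refine Finset.card_le_card_of_injOn (fun r => fun p _ => r % p) ?_ ?_
    · intro r hr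
      simp only [rts, Finset.coe_filter, Finset.mem_range, Set.mem_ofPred_eq] at hr
      simp only [Finset.mem_coe, Finset.mem_pi]
      intro p hp
      have hpp := Nat.prime_of_mem_primeFactors hp
      have hpc := Nat.dvd_of_mem_primeFactors hp
      simp only [rts, Finset.mem_filter, Finset.mem_range]
      refine ⟨Nat.mod_lt _ hpp.pos, ?_⟩
      have h1 : (p : ℤ) ∣ (r : ℤ) ^ 2 + a * r + b := (Int.natCast_dvd_natCast.2 hpc).trans hr.2
      have h2 : ((r % p : ℕ) : ℤ) = (r : ℤ) - p * (r / p : ℕ) := by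
        have := Nat.mod_add_div r p
        have h3 : ((r % p + p * (r / p) : ℕ) : ℤ) = r := by rw [this]
        push_cast at h3 ⊢
        linarith
      have h4 : ((r % p : ℕ) : ℤ) ^ 2 + a * ((r % p : ℕ) : ℤ) + b =
          ((r : ℤ) ^ 2 + a * r + b) - p * ((r / p : ℕ) * (2 * r - p * (r / p : ℕ) + a)) := by
        rw [h2]; ring
      rw [h4]
      exact dvd_sub h1 (dvd_mul_right _ _)
    · intro r hr s hs hrs
      simp only [rts, Finset.coe_filter, Finset.mem_range, Set.mem_ofPred_eq] at hr hs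
      have h1 : ∀ p ∈ c.primeFactors, p ∣ ((s : ℤ) - r).natAbs := by
        intro p hp
        have h2 : r % p = s % p := congrFun (congrFun hrs p) hp
        have h3 : (p : ℤ) ∣ (s : ℤ) - r := (Nat.modEq_iff_dvd).1 h2
        exact Int.natCast_dvd.1 h3
      have h2 : (∏ p ∈ c.primeFactors, p) ∣ ((s : ℤ) - r).natAbs :=
        Finset.prod_primes_dvd _ (fun p hp => (Nat.prime_of_mem_primeFactors hp).prime) h1
      rw [Nat.prod_primeFactors_of_squarefree hc] at h2
      have h3 : ((s : ℤ) - r).natAbs < c := by omega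
      have h4 := Nat.eq_zero_of_dvd_of_lt h2 h3
      omega
  refine key.trans ?_
  rw [Finset.card_pi]
  calc (∏ p ∈ c.primeFactors, (rts a b p).card) ≤ ∏ _p ∈ c.primeFactors, 2 :=
        Finset.prod_le_prod' fun p hp => card_rts_prime a b (Nat.prime_of_mem_primeFactors hp)
    _ = 2 ^ c.primeFactors.card := by simp

lemma squarefree_prod {s : Finset ℕ} (hs : ∀ p ∈ s, p.Prime) : Squarefree (∏ p ∈ s, p) := by
  refine Finset.squarefree_prod_of_pairwise_isCoprime (fun p hp q hq hpq => ?_) fun p hp => ?_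
  · rw [Function.onFun, ← Nat.coprime_iff_isRelPrime]
    exact (Nat.coprime_primes (hs p hp) (hs q hq)).2 hpq
  · exact (hs p hp).prime.squarefree

lemma odd_prod {s : Finset ℕ} (hs : ∀ p ∈ s, p.Prime ∧ p ≠ 2) : Odd (∏ p ∈ s, p) := by
  refine Finset.prod_induction _ Odd (fun _ _ h1 h2 => h1.mul h2) odd_one fun p hp => ?_
  exact (hs p hp).1.odd_of_ne_two (hs p hp).2

lemma dvd_prod_iff {s : Finset ℕ} (hs : ∀ p ∈ s, p.Prime) {q : ℕ} (hq : q.Prime) :
    q ∣ ∏ p ∈ s, p ↔ q ∈ s := by
  constructor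
  · intro h
    have := (Nat.mem_primeFactors.2 ⟨hq, h, (squarefree_prod hs).ne_zero⟩)
    rwa [Nat.primeFactors_prod hs] at this
  · intro h
    exact Finset.dvd_prod_of_mem _ h

lemma prod_pos {s : Finset ℕ} (hs : ∀ p ∈ s, p.Prime) : 0 < ∏ p ∈ s, p :=
  Finset.prod_pos fun p hp => (hs p hp).pos

end Pool.Agent.K7.H26.BL
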