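import Pool.Agent.K7.H26.BL.Rts

/-! Job BL of project PT (MP_d88658_nt): consequences of the sieve bound. -/

set_option autoImplicit false

open Finset

namespace Pool.Agent.K7.H26.BL

/-- `n` has no prime factor `≤ z` -/
def Rough (z n : ℕ) : Prop := ∀ p : ℕ, p.Prime → p ≤ z → ¬ p ∣ n

/-- the sieve bound with the constant `C` -/
def SvBound (C : ℝ) : Prop := ∀ (z A B : ℕ) (t : ℤ), 2 ≤ z → Squarefree A → Odd A →
  (∀ p : ℕ, p.Prime → p ∣ A → p ≤ z ∧ ¬ (p : ℤ) ∣ t) → A * z ^ 4 ≤ B →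
  (Set.ncard {n : ℕ | 1 ≤ n ∧ n ≤ B ∧ (∀ p : ℕ, p.Prime → p ≤ z → ¬ p ∣ n) ∧
    ∀ p : ℕ, p.Prime → p ∣ A → IsSquare ((t * n : ℤ) : ZMod p)} : ℝ) ≤
    C * B / (2 ^ A.primeFactors.card * Real.log z)

/-- The sieve bound for a finite set of numbers and a set of primes. -/
lemma sv_set {C : ℝ} (hC : SvBound C) {z B : ℕ} {t : ℤ} {P : Finset ℕ} (hz : 2 ≤ z)
    (hP : ∀ p ∈ P, p.Prime ∧ p ≠ 2 ∧ p ≤ z ∧ ¬ (p : ℤ) ∣ t) (hB : (∏ p ∈ P, p) * z ^ 4 ≤ B)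
    (S : Finset ℕ) (hS : ∀ n ∈ S, 1 ≤ n ∧ n ≤ B ∧ Rough z n ∧
      ∀ p ∈ P, IsSquare ((t * n : ℤ) : ZMod p)) :
    (S.card : ℝ) ≤ C * B / (2 ^ P.card * Real.log z) := by
  have hprime : ∀ p ∈ P, p.Prime := fun p hp => (hP p hp).1
  have h := hC z (∏ p ∈ P, p) B t hz (squarefree_prod hprime)
    (odd_prod fun p hp => ⟨(hP p hp).1, (hP p hp).2.1⟩)
    (fun p hp hpd => (hP p ((dvd_prod_iff hprime hp).1 hpd)).2.2) hB
  rw [Nat.primeFactors_prod hprime] at h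
  refine le_trans ?_ h
  rw [← Set.ncard_coe_finset, Nat.cast_le]
  refine Set.ncard_le_ncard ?_ ((Set.finite_Icc 1 B).subset ?_)
  · intro n hn
    obtain ⟨h1, h2, h3, h4⟩ := hS n hn
    exact ⟨h1, h2, h3, fun p hp hpd => h4 p ((dvd_prod_iff hprime hp).1 hpd)⟩
  · intro n hn
    exact ⟨hn.1, hn.2.1⟩

/-- Sum of the reciprocals, by dyadic decomposition. -/
lemma sv_sum_inv {C : ℝ} (hC0 : 0 < C) (hC : SvBound C) {z K : ℕ} {t : ℤ} {P : Finset ℕ}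
    (hz : 2 ≤ z) (hP : ∀ p ∈ P, p.Prime ∧ p ≠ 2 ∧ p ≤ z ∧ ¬ (p : ℤ) ∣ t)
    (S : Finset ℕ) (hS : ∀ n ∈ S, 1 ≤ n ∧ (∏ p ∈ P, p) * z ^ 4 ≤ n ∧ n < 2 ^ K ∧ Rough z n ∧
      ∀ p ∈ P, IsSquare ((t * n : ℤ) : ZMod p)) :
    (∑ n ∈ S, (1 : ℝ) / n) ≤ 2 * C * K / (2 ^ P.card * Real.log z) := by
  have hlog : 0 < Real.log z := Real.log_pos (by exact_mod_cast hz)
  have hmaps : ∀ n ∈ S, Nat.log 2 n ∈ range K := by
    intro n hn
    obtain ⟨h1, -, h3, -⟩ := hS n hn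
    exact Finset.mem_range.2 (Nat.log_lt_of_lt_pow (by omega) h3)
  rw [← Finset.sum_fiberwise_of_maps_to hmaps]
  have hone : ∀ i ∈ range K, (∑ n ∈ S.filter (fun n => Nat.log 2 n = i), (1 : ℝ) / n) ≤
      2 * C / (2 ^ P.card * Real.log z) := by
    intro i _
    set Si := S.filter (fun n => Nat.log 2 n = i) with hSi
    rcases Si.eq_empty_or_nonempty with he | ⟨n₀, hn₀⟩
    · rw [he, Finset.sum_empty]
      positivity
    · have hlt : ∀ n ∈ Si, 2 ^ i ≤ n ∧ n < 2 ^ (i + 1) := by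
        intro n hn
        obtain ⟨hn1, hn2⟩ := Finset.mem_filter.1 hn
        have h1 := (hS n hn1).1
        rw [← hn2]
        exact ⟨Nat.pow_log_le_self 2 (by omega), Nat.lt_pow_succ_log_self (by norm_num) n⟩
      have hn₀' := hS n₀ (Finset.mem_filter.1 hn₀).1
      have hcard : (Si.card : ℝ) ≤ C * (2 ^ (i + 1) : ℕ) / (2 ^ P.card * Real.log z) := by
        refine sv_set hC hz hP (hn₀'.2.1.trans (hlt n₀ hn₀).2.le) Si fun n hn => ?_
        have hn' := hS n (Finset.mem_filter.1 hn).1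
        exact ⟨hn'.1, (hlt n hn).2.le, hn'.2.2.2.1, hn'.2.2.2.2⟩
      calc (∑ n ∈ Si, (1 : ℝ) / n) ≤ ∑ _n ∈ Si, (1 : ℝ) / 2 ^ i := by
            refine Finset.sum_le_sum fun n hn => ?_
            have h2 : ((2 : ℝ) ^ i) ≤ n := by exact_mod_cast (hlt n hn).1
            exact one_div_le_one_div_of_le (by positivity) h2
        _ = Si.card * (1 / 2 ^ i) := by rw [Finset.sum_const, nsmul_eq_mul]
        _ ≤ (C * (2 ^ (i + 1) : ℕ) / (2 ^ P.card * Real.log z)) * (1 / 2 ^ i) := by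
            gcongr
        _ = 2 * C / (2 ^ P.card * Real.log z) := by
            push_cast
            rw [pow_succ]
            field_simp
  calc (∑ i ∈ range K, ∑ n ∈ S.filter (fun n => Nat.log 2 n = i), (1 : ℝ) / n) ≤
        ∑ _i ∈ range K, 2 * C / (2 ^ P.card * Real.log z) := Finset.sum_le_sum hone
    _ = 2 * C * K / (2 ^ P.card * Real.log z) := by
        rw [Finset.sum_const, Finset.card_range, nsmul_eq_mul]
        ring

end Pool.Agent.K7.H26.BL
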